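import Pool.Agent.Results.MP_37c1b2_nt.ThreeQuarters

/-!
# The numbers in which the exponent of `b` is even
-/

set_option autoImplicit false

open Filter Finset Topology

namespace Pool.Agent.Y754.TQ

open Pool.Agent.Results.MP_37c1b2_nt.ThreeQuarters (HasDensity cnt cnt_eq cnt_le cnt_split
  tendsto_log_div ncard_eq_cnt)

/-- the largest `m` with `b ^ m ∣ n` is even -/
def Ev (b n : ℕ) : Prop := ∃ k, b ^ (2 * k) ∣ n ∧ ¬ b ^ (2 * k + 1) ∣ n

lemma exists_exact {b : ℕ} (hb : 2 ≤ b) {n : ℕ} (hn : 1 ≤ n) :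
    ∃ m, b ^ m ∣ n ∧ ¬ b ^ (m + 1) ∣ n := by
  classical
  have h : ∃ m, ¬ b ^ m ∣ n := ⟨n, fun h => by
    have h1 := Nat.le_of_dvd hn h
    have h2 : n < b ^ n := Nat.lt_pow_self hb
    omega⟩
  have h0 : Nat.find h ≠ 0 := by
    intro h0
    have h1 := Nat.find_spec h
    rw [h0, pow_zero] at h1
    exact h1 (one_dvd n)
  obtain ⟨m, hm⟩ := Nat.exists_eq_succ_of_ne_zero h0
  refine ⟨m, ?_, ?_⟩
  · by_contra h1
    exact Nat.find_min h (m := m) (by omega) h1
  · have h1 := Nat.find_spec h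
    rw [hm] at h1
    exact h1

lemma ev_iff {b m n : ℕ} (h1 : b ^ m ∣ n) (h2 : ¬ b ^ (m + 1) ∣ n) : Ev b n ↔ Even m := by
  constructor
  · rintro ⟨k, h3, h4⟩
    have h5 : 2 * k ≤ m := by
      by_contra h
      push Not at h
      exact h2 ((pow_dvd_pow b (show m + 1 ≤ 2 * k by omega)).trans h3)
    have h6 : m ≤ 2 * k := by
      by_contra h
      push Not at h
      exact h4 ((pow_dvd_pow b (show 2 * k + 1 ≤ m by omega)).trans h1)
    exact ⟨k, by omega⟩
  · rintro ⟨k, hk⟩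
    refine ⟨k, ?_, ?_⟩
    · rw [show 2 * k = m by omega]; exact h1
    · rw [show 2 * k + 1 = m + 1 by omega]; exact h2

lemma ev_mul {b a : ℕ} (hab : Nat.Coprime b a) (n : ℕ) : Ev b (a * n) ↔ Ev b n := by
  unfold Ev
  have h : ∀ j : ℕ, b ^ j ∣ a * n ↔ b ^ j ∣ n := fun j =>
    Nat.Coprime.dvd_mul_left (Nat.Coprime.pow_left j hab)
  simp only [h]

lemma ev_self {b : ℕ} (hb : 2 ≤ b) {n : ℕ} (hn : 1 ≤ n) : Ev b (b * n) ↔ ¬ Ev b n := by
  obtain ⟨m, h1, h2⟩ := exists_exact hb hn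
  have hb0 : 0 < b := by omega
  have h3 : b ^ (m + 1) ∣ b * n := by
    rw [pow_succ']; exact Nat.mul_dvd_mul_left b h1
  have h4 : ¬ b ^ (m + 1 + 1) ∣ b * n := by
    rw [pow_succ']
    intro h
    exact h2 (Nat.dvd_of_mul_dvd_mul_left hb0 h)
  rw [ev_iff h1 h2, ev_iff h3 h4, Nat.even_add_one]

lemma dvd_of_not_ev {b n : ℕ} (h : ¬ Ev b n) : b ∣ n := by
  by_contra hd
  refine h ⟨0, ?_, ?_⟩
  · rw [mul_zero, pow_zero]; exact one_dvd n
  · rw [mul_zero, zero_add, pow_one]; exact hd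

lemma cnt_rec {b : ℕ} (hb : 2 ≤ b) (x : ℕ) : cnt (Ev b) x + cnt (Ev b) (x / b) = x := by
  classical
  have h1 : cnt (fun n => True ∧ Ev b n) x + cnt (fun n => True ∧ ¬ Ev b n) x =
      cnt (fun _ => True) x := cnt_split (fun _ => True) (Ev b) x
  have h2 : cnt (fun _ => True) x = x := by
    rw [cnt_eq]
    simp
  have h3 : cnt (fun n => True ∧ ¬ Ev b n) x = cnt (Ev b) (x / b) := by
    rw [cnt_eq, cnt_eq]
    symm
    apply Finset.card_bij (fun m _ => b * m)
    · intro m hm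
      rw [Finset.mem_filter, Finset.mem_Icc] at hm ⊢
      refine ⟨⟨Nat.mul_pos (by omega) hm.1.1, ?_⟩, trivial, ?_⟩
      · exact (Nat.mul_le_mul_left b hm.1.2).trans (Nat.mul_div_le x b)
      · rw [ev_self hb hm.1.1]
        exact not_not.2 hm.2
    · intro a _ c _ hac
      exact Nat.eq_of_mul_eq_mul_left (by omega) hac
    · intro n hn
      rw [Finset.mem_filter, Finset.mem_Icc] at hn
      obtain ⟨m, rfl⟩ := dvd_of_not_ev hn.2.2
      have hm : 1 ≤ m := by
        rcases Nat.eq_zero_or_pos m with h | h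
        · subst h; simp at hn
        · exact h
      refine ⟨m, ?_, rfl⟩
      rw [Finset.mem_filter, Finset.mem_Icc]
      refine ⟨⟨hm, ?_⟩, ?_⟩
      · rw [Nat.le_div_iff_mul_le (by omega), mul_comm]
        exact hn.1.2
      · have := hn.2.2
        rw [ev_self hb hm, not_not] at this
        exact this
  have h4 : cnt (fun n => True ∧ Ev b n) x = cnt (Ev b) x := by
    rw [cnt_eq, cnt_eq]
    simp
  rw [h2, h3, h4] at h1
  exact h1

lemma cnt_bound {b : ℕ} (hb : 2 ≤ b) (x : ℕ) :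
    |(cnt (Ev b) x : ℝ) - b / (b + 1) * x| ≤ Nat.log 2 x + 1 := by
  have hb' : (2 : ℝ) ≤ b := by exact_mod_cast hb
  have hq1 : (b : ℝ) / (b + 1) ≤ 1 := by rw [div_le_one (by positivity)]; linarith
  have hq0 : (0 : ℝ) ≤ (b : ℝ) / (b + 1) := by positivity
  induction x using Nat.strong_induction_on with
  | _ x ih =>
    rcases Nat.lt_or_ge x 2 with hx | hx
    · have h1 := cnt_le (Ev b) x
      have h2 : (cnt (Ev b) x : ℝ) ≤ x := by exact_mod_cast h1
      have h3 : (0 : ℝ) ≤ cnt (Ev b) x := by positivity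
      have h4 : (x : ℝ) ≤ 1 := by
        have : x ≤ 1 := by omega
        exact_mod_cast this
      have h5 : (0 : ℝ) ≤ (Nat.log 2 x : ℝ) := by positivity
      have h6 : (0 : ℝ) ≤ (x : ℝ) := by positivity
      have h7 : (b : ℝ) / (b + 1) * x ≤ 1 := by nlinarith
      have h8 : (0 : ℝ) ≤ (b : ℝ) / (b + 1) * x := by positivity
      rw [abs_le]
      constructor <;> linarith
    · have hlt : x / b < x := Nat.div_lt_self (by omega) (by omega)
      have h1 := ih (x / b) hlt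
      have h2 := cnt_rec hb x
      have h3 : (cnt (Ev b) x : ℝ) + (cnt (Ev b) (x / b) : ℝ) = x := by exact_mod_cast h2
      have h4 : Nat.log 2 (x / b) + 1 ≤ Nat.log 2 x := by
        have h5 : Nat.log 2 (x / b) ≤ Nat.log 2 (x / 2) :=
          Nat.log_mono_right (Nat.div_le_div_left hb (by norm_num))
        have h6 : Nat.log 2 (x / 2) = Nat.log 2 x - 1 := Nat.log_div_base 2 x
        have h7 : 1 ≤ Nat.log 2 x := Nat.log_pos (by norm_num) hx
        omega
      have h5 : (Nat.log 2 (x / b) : ℝ) + 1 ≤ (Nat.log 2 x : ℝ) := by exact_mod_cast h4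
      have h6 : b * (x / b) + x % b = x := Nat.div_add_mod x b
      have h7 : x % b < b := Nat.mod_lt _ (by omega)
      have h8 : (b : ℝ) * ((x / b : ℕ) : ℝ) + ((x % b : ℕ) : ℝ) = x := by exact_mod_cast h6
      have h9 : ((x % b : ℕ) : ℝ) ≤ b + 1 := by
        have : x % b ≤ b + 1 := by omega
        exact_mod_cast this
      have h10 : (0 : ℝ) ≤ ((x % b : ℕ) : ℝ) := by positivity
      have h11 : (cnt (Ev b) x : ℝ) - b / (b + 1) * x =
          -((cnt (Ev b) (x / b) : ℝ) - b / (b + 1) * ((x / b : ℕ) : ℝ)) +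
            ((x % b : ℕ) : ℝ) / (b + 1) := by
        have e1 : (cnt (Ev b) x : ℝ) = x - (cnt (Ev b) (x / b) : ℝ) := by linarith
        rw [e1, ← h8]
        field_simp
        ring
      have h12 : ((x % b : ℕ) : ℝ) / (b + 1) ≤ 1 := by
        rw [div_le_one (by positivity)]; exact h9
      have h13 : (0 : ℝ) ≤ ((x % b : ℕ) : ℝ) / (b + 1) := by positivity
      rw [h11]
      rw [abs_le] at h1 ⊢
      constructor <;> linarith [h1.1, h1.2]

lemma tendsto_ev {b : ℕ} (hb : 2 ≤ b) :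
    Tendsto (fun x : ℕ => (cnt (Ev b) x : ℝ) / (x : ℝ)) atTop (𝓝 (b / (b + 1))) := by
  rw [tendsto_iff_norm_sub_tendsto_zero]
  apply squeeze_zero' (Eventually.of_forall fun x => norm_nonneg _) _ tendsto_log_div
  filter_upwards [eventually_ge_atTop 1] with x hx
  have hx0 : (0 : ℝ) < x := by exact_mod_cast hx
  have h1 := cnt_bound hb x
  rw [Real.norm_eq_abs]
  have h2 : (cnt (Ev b) x : ℝ) / x - b / (b + 1) = ((cnt (Ev b) x : ℝ) - b / (b + 1) * x) / x := by
    field_simp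
  rw [h2, abs_div, abs_of_pos hx0]
  exact div_le_div_of_nonneg_right h1 hx0.le

end Pool.Agent.Y754.TQ
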