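import Pool.Agent.Y754.TQ.Basic

/-!
# The upper bound for sets with a density
-/

set_option autoImplicit false

open Filter Finset Topology

namespace Pool.Agent.Y754.TQ

open Pool.Agent.Results.MP_37c1b2_nt.ThreeQuarters (HasDensity cnt cnt_eq cnt_le cnt_split
  tendsto_log_div ncard_eq_cnt)

/-- `A` contains no dilate of the pattern made of the elements of `S` and of `b` -/
def Avoids (S : Finset ℕ) (b : ℕ) (A : Set ℕ) : Prop :=
  ∀ n : ℕ, 1 ≤ n → ¬ ((∀ a ∈ S, a * n ∈ A) ∧ b * n ∈ A)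

lemma cnt_shift (P : ℕ → Prop) {z y : ℕ} (h : z ≤ y) : cnt P y ≤ cnt P z + (y - z) := by
  classical
  rw [cnt_eq, cnt_eq]
  have h1 : (Icc 1 y).filter P ⊆ (Icc 1 z).filter P ∪ Ioc z y := by
    intro n hn
    simp only [mem_filter, mem_Icc, mem_union, mem_Ioc] at hn ⊢
    by_cases hz : n ≤ z
    · exact Or.inl ⟨⟨hn.1.1, hz⟩, hn.2⟩
    · exact Or.inr ⟨by omega, hn.1.2⟩
  refine (card_le_card h1).trans ((card_union_le _ _).trans ?_)
  rw [Nat.card_Ioc]

/-- the count of `n ≤ x` with `a * n` outside `A` -/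
lemma cnt_dilate (A : Set ℕ) (Q : ℕ → Prop) (a : ℕ) (ha : 1 ≤ a) (b x : ℕ)
    (hQ : ∀ n, 1 ≤ n → Ev b n → Q (a * n)) :
    cnt (fun n => a * n ∉ A ∧ Ev b n) x ≤ cnt (fun n => n ∉ A ∧ Q n) (a * x) := by
  classical
  rw [cnt_eq, cnt_eq]
  apply Finset.card_le_card_of_injOn (fun n => a * n)
  · intro n hn
    rw [Finset.mem_coe, Finset.mem_filter, Finset.mem_Icc] at hn
    rw [Finset.mem_coe, Finset.mem_filter, Finset.mem_Icc]
    exact ⟨⟨Nat.mul_pos ha hn.1.1, Nat.mul_le_mul_left a hn.1.2⟩, hn.2.1, hQ n hn.1.1 hn.2.2⟩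
  · intro u _ v _ huv
    exact Nat.eq_of_mul_eq_mul_left ha huv

lemma basic {S : Finset ℕ} {b : ℕ} (hb : 2 ≤ b) (hS : ∀ a ∈ S, Nat.Coprime b a) (A : Set ℕ)
    (hA : Avoids S b A) (x : ℕ) :
    cnt (Ev b) x ≤ ∑ a ∈ S, cnt (fun n => n ∉ A ∧ Ev b n) (a * x) +
      cnt (fun n => n ∉ A ∧ ¬ Ev b n) (b * x) := by
  classical
  have hpos : ∀ a ∈ S, 1 ≤ a := by
    intro a ha
    rcases Nat.eq_zero_or_pos a with h | h
    · have h1 := hS a ha
      rw [h, Nat.coprime_zero_right] at h1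
      omega
    · exact h
  have h1 : (Icc 1 x).filter (Ev b) ⊆
      (S.biUnion fun a => (Icc 1 x).filter (fun n => a * n ∉ A ∧ Ev b n)) ∪
        (Icc 1 x).filter (fun n => b * n ∉ A ∧ Ev b n) := by
    intro n hn
    rw [mem_filter] at hn
    have hn1 := (mem_Icc.1 hn.1).1
    rw [mem_union, mem_biUnion]
    by_cases hbn : b * n ∈ A
    · left
      have h2 : ¬ ∀ a ∈ S, a * n ∈ A := fun h => hA n hn1 ⟨h, hbn⟩
      push Not at h2
      obtain ⟨a, ha, han⟩ := h2
      exact ⟨a, ha, by rw [mem_filter]; exact ⟨hn.1, han, hn.2⟩⟩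
    · right
      rw [mem_filter]
      exact ⟨hn.1, hbn, hn.2⟩
  have h2 : cnt (Ev b) x ≤ ∑ a ∈ S, cnt (fun n => a * n ∉ A ∧ Ev b n) x +
      cnt (fun n => b * n ∉ A ∧ Ev b n) x := by
    rw [cnt_eq, cnt_eq]
    refine (card_le_card h1).trans ((card_union_le _ _).trans (Nat.add_le_add_right ?_ _))
    refine card_biUnion_le.trans (sum_le_sum fun a _ => ?_)
    rw [cnt_eq]
  refine h2.trans (Nat.add_le_add ?_ ?_)
  · refine sum_le_sum fun a ha => ?_
    exact cnt_dilate A (Ev b) a (hpos a ha) b x fun n _ h => (ev_mul (hS a ha) n).2 h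
  · exact cnt_dilate A (fun n => ¬ Ev b n) b (by omega) b x fun n hn h => by
      rw [ev_self hb hn, not_not]; exact h

/-- A set which avoids the pattern and has a density has density at most `b / (b + 1)`. -/
theorem upper {S : Finset ℕ} {b : ℕ} (hb : 2 ≤ b) (hS : ∀ a ∈ S, Nat.Coprime b a)
    (hsum : ∑ a ∈ S, a ≤ b) (A : Set ℕ) (hA : Avoids S b A) (d : ℝ) (hd : HasDensity A d) :
    d ≤ b / (b + 1) := by
  classical
  have hb0 : (0 : ℝ) < b := by exact_mod_cast (by omega : 0 < b)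
  have hsum' : ∑ a ∈ S, (a : ℝ) ≤ b := by
    rw [← Nat.cast_sum]
    exact_mod_cast hsum
  -- density of the complement
  have hC : Tendsto (fun x : ℕ => (cnt (fun n => n ∉ A) x : ℝ) / (x : ℝ)) atTop (𝓝 (1 - d)) := by
    unfold HasDensity at hd
    have h1 : Tendsto (fun x : ℕ => 1 - ((A ∩ Set.Icc 1 x).ncard : ℝ) / (x : ℝ)) atTop
        (𝓝 (1 - d)) := hd.const_sub 1
    refine h1.congr' ?_
    filter_upwards [eventually_ge_atTop 1] with x hx
    have hx0 : (0 : ℝ) < x := by exact_mod_cast hx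
    rw [ncard_eq_cnt]
    have h2 : cnt (fun n => n ∈ A) x + cnt (fun n => n ∉ A) x = x := by
      have h3 := cnt_split (fun _ => True) (fun n => n ∈ A) x
      have h4 : cnt (fun _ => True) x = x := by rw [cnt_eq]; simp
      simp only [true_and] at h3
      omega
    have h5 : (cnt (fun n => n ∈ A) x : ℝ) + (cnt (fun n => n ∉ A) x : ℝ) = x := by
      exact_mod_cast h2
    rw [eq_div_iff hx0.ne', sub_mul, div_mul_cancel₀ _ hx0.ne']
    linarith
  by_contra hcon
  push Not at hcon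
  set γ : ℝ := (d - b / (b + 1)) / 4 with hγ
  have hγ0 : 0 < γ := by rw [hγ]; linarith
  set ε : ℝ := b * γ / (b + 1) with hε
  have hε0 : 0 < ε := by positivity
  set e : ℕ → ℝ := fun x => (cnt (fun n => n ∉ A ∧ Ev b n) x : ℝ) / (x : ℝ) with he
  have he0 : ∀ x, 0 ≤ e x := fun x => by simp only [he]; positivity
  have he1 : ∀ x, e x ≤ 1 := fun x => by
    simp only [he]
    apply div_le_one_of_le₀ _ (by positivity)
    exact_mod_cast cnt_le _ x
  have hev1 : ∀ᶠ x : ℕ in atTop, (b : ℝ) / (b + 1) - ε < (cnt (Ev b) x : ℝ) / (x : ℝ) :=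
    (tendsto_ev hb).eventually (lt_mem_nhds (by linarith))
  have hev2 : ∀ᶠ x : ℕ in atTop, (cnt (fun n => n ∉ A) x : ℝ) / (x : ℝ) < 1 - d + ε :=
    hC.eventually (gt_mem_nhds (by linarith))
  obtain ⟨x₀, hx₀⟩ := eventually_atTop.1 (hev1.and (hev2.and (eventually_ge_atTop 1)))
  -- the inequality at each scale
  have hscale : ∀ x : ℕ, x₀ ≤ x →
      (b : ℝ) / (b + 1) - ε - b * (1 - d + ε) ≤ ∑ a ∈ S, (a : ℝ) * e (a * x) - b * e (b * x) := by
    intro x hx
    obtain ⟨a1, -, a3⟩ := hx₀ x hx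
    obtain ⟨-, b2, -⟩ := hx₀ (b * x) (hx.trans (Nat.le_mul_of_pos_left _ (by omega)))
    have hx0 : (0 : ℝ) < x := by exact_mod_cast a3
    have h1 := basic hb hS A hA x
    have h2 := cnt_split (fun n => n ∉ A) (Ev b) (b * x)
    have h3 : (cnt (Ev b) x : ℝ) ≤ ∑ a ∈ S, (cnt (fun n => n ∉ A ∧ Ev b n) (a * x) : ℝ) +
        (cnt (fun n => n ∉ A ∧ ¬ Ev b n) (b * x) : ℝ) := by
      exact_mod_cast h1
    have h4 : (cnt (fun n => n ∉ A ∧ Ev b n) (b * x) : ℝ) +
        (cnt (fun n => n ∉ A ∧ ¬ Ev b n) (b * x) : ℝ) = (cnt (fun n => n ∉ A) (b * x) : ℝ) := by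
      exact_mod_cast h2
    have c1 : ((b : ℝ) / (b + 1) - ε) * x < cnt (Ev b) x := by
      rw [lt_div_iff₀ hx0] at a1
      exact a1
    have c2 : (cnt (fun n => n ∉ A) (b * x) : ℝ) < (1 - d + ε) * (b * x) := by
      rw [div_lt_iff₀ (by push_cast; positivity)] at b2
      push_cast at b2
      exact b2
    have d1 : ∀ a : ℕ, (cnt (fun n => n ∉ A ∧ Ev b n) (a * x) : ℝ) = a * e (a * x) * x := by
      intro a
      rcases Nat.eq_zero_or_pos a with h | h
      · subst h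
        simp [cnt_eq]
      · have h5 : (0 : ℝ) < a := by exact_mod_cast h
        simp only [he]
        push_cast
        field_simp
    rw [sum_congr rfl fun a _ => d1 a, ← sum_mul] at h3
    rw [d1 b] at h4
    have h5 : ((b : ℝ) / (b + 1) - ε - b * (1 - d + ε)) * x ≤
        (∑ a ∈ S, (a : ℝ) * e (a * x) - b * e (b * x)) * x := by
      nlinarith
    exact le_of_mul_le_mul_right h5 hx0
  have hc : (b : ℝ) / (b + 1) - ε - b * (1 - d + ε) = 3 * b * γ := by
    have e1 : (b + 1) * ε = b * γ := by rw [hε]; field_simp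
    have e2 : d = b / (b + 1) + 4 * γ := by rw [hγ]; ring
    have e3 : (b : ℝ) / (b + 1) - b * (1 - b / (b + 1)) = 0 := by field_simp; ring
    rw [e2]
    linear_combination e3 - e1
  rw [hc] at hscale
  have hpos : ∀ a ∈ S, 1 ≤ a := by
    intro a ha
    rcases Nat.eq_zero_or_pos a with h | h
    · have h1 := hS a ha
      rw [h, Nat.coprime_zero_right] at h1
      omega
    · exact h
  -- the descent
  have hstep : ∀ t : ℝ, (∃ Y : ℕ, ∀ y, Y ≤ y → e y ≤ t) → ∃ Y : ℕ, ∀ y, Y ≤ y → e y ≤ t - γ := by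
    rintro t ⟨Y, hY⟩
    have ht0 : 0 ≤ t := (he0 Y).trans (hY Y le_rfl)
    obtain ⟨M, hM⟩ := exists_nat_gt (1 / γ)
    refine ⟨b * (x₀ + Y + M + 1), fun y hy => ?_⟩
    set x := y / b with hx
    have hxX : x₀ + Y + M + 1 ≤ x := by
      rw [hx, Nat.le_div_iff_mul_le (by omega), mul_comm]
      exact hy
    have hx0 : (0 : ℝ) < x := by exact_mod_cast (by omega : 0 < x)
    have h1 := hscale x (by omega)
    have h2 : ∑ a ∈ S, (a : ℝ) * e (a * x) ≤ b * t := by
      calc ∑ a ∈ S, (a : ℝ) * e (a * x) ≤ ∑ a ∈ S, (a : ℝ) * t := by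
            refine sum_le_sum fun a ha => ?_
            refine mul_le_mul_of_nonneg_left (hY _ ?_) (by positivity)
            have h3 : 1 * x ≤ a * x := Nat.mul_le_mul_right _ (hpos a ha)
            omega
        _ = (∑ a ∈ S, (a : ℝ)) * t := by rw [sum_mul]
        _ ≤ b * t := mul_le_mul_of_nonneg_right hsum' ht0
    have h3 : e (b * x) ≤ t - 3 * γ := by
      have h4 : b * e (b * x) ≤ b * (t - 3 * γ) := by linarith
      exact le_of_mul_le_mul_left h4 hb0
    have h4 : b * x ≤ y := Nat.mul_div_le y b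
    have h5 : y - b * x ≤ b := by
      have h6 := Nat.div_add_mod y b
      have h7 := Nat.mod_lt y (show 0 < b by omega)
      rw [← hx] at h6
      omega
    have h6 := cnt_shift (fun n => n ∉ A ∧ Ev b n) h4
    have h7 : (cnt (fun n => n ∉ A ∧ Ev b n) y : ℝ) ≤
        cnt (fun n => n ∉ A ∧ Ev b n) (b * x) + b := by
      have h8 : cnt (fun n => n ∉ A ∧ Ev b n) y ≤ cnt (fun n => n ∉ A ∧ Ev b n) (b * x) + b := by
        omega
      exact_mod_cast h8
    have h8 : (b : ℝ) * x ≤ y := by exact_mod_cast h4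
    have hbx : (0 : ℝ) < b * x := by positivity
    have hy0 : (0 : ℝ) < y := by linarith
    have h9 : e y ≤ e (b * x) + 1 / x := by
      have h10 : e (b * x) + 1 / x = (cnt (fun n => n ∉ A ∧ Ev b n) (b * x) + b) / (b * x) := by
        simp only [he]
        push_cast
        field_simp
      rw [h10]
      simp only [he]
      rw [div_le_div_iff₀ hy0 hbx]
      have h11 : (0 : ℝ) ≤ cnt (fun n => n ∉ A ∧ Ev b n) y := by positivity
      have h12 : (0 : ℝ) ≤ cnt (fun n => n ∉ A ∧ Ev b n) (b * x) + (b : ℝ) := by positivity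
      calc (cnt (fun n => n ∉ A ∧ Ev b n) y : ℝ) * (b * x) ≤
          (cnt (fun n => n ∉ A ∧ Ev b n) (b * x) + b) * (b * x) :=
            mul_le_mul_of_nonneg_right h7 hbx.le
        _ ≤ (cnt (fun n => n ∉ A ∧ Ev b n) (b * x) + b) * y :=
            mul_le_mul_of_nonneg_left h8 h12
    have h13 : 1 / (x : ℝ) ≤ γ := by
      have h14 : (M : ℝ) ≤ x := by exact_mod_cast (by omega : M ≤ x)
      rw [div_le_iff₀ hx0]
      rw [div_lt_iff₀ hγ0] at hM
      nlinarith
    linarith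
  have hall : ∀ k : ℕ, ∃ Y : ℕ, ∀ y, Y ≤ y → e y ≤ 1 - k * γ := by
    intro k
    induction k with
    | zero => exact ⟨0, fun y _ => by simpa using he1 y⟩
    | succ k ih =>
      obtain ⟨Y, hY⟩ := hstep _ ih
      refine ⟨Y, fun y hy => ?_⟩
      have := hY y hy
      push_cast
      linarith
  obtain ⟨k, hk⟩ := exists_nat_gt (1 / γ)
  obtain ⟨Y, hY⟩ := hall k
  have h1 := hY Y le_rfl
  have h2 := he0 Y
  rw [div_lt_iff₀ hγ0] at hk
  linarith

/-- the extremal set -/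
theorem lower {S : Finset ℕ} {b : ℕ} (hb : 2 ≤ b) (hS : ∀ a ∈ S, Nat.Coprime b a)
    (hne : S.Nonempty) :
    ∃ A : Set ℕ, (∀ a ∈ A, 1 ≤ a) ∧ Avoids S b A ∧ HasDensity A (b / (b + 1)) := by
  refine ⟨{n | 1 ≤ n ∧ Ev b n}, fun a ha => ha.1, ?_, ?_⟩
  · rintro n hn ⟨h1, h2⟩
    obtain ⟨a, ha⟩ := hne
    have h3 := (h1 a ha).2
    rw [ev_mul (hS a ha)] at h3
    have h4 := h2.2
    rw [ev_self hb hn] at h4
    exact h4 h3
  · unfold HasDensity
    refine (tendsto_ev hb).congr ?_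
    intro x
    classical
    have h : cnt (fun n => n ∈ ({n | 1 ≤ n ∧ Ev b n} : Set ℕ)) x = cnt (Ev b) x := by
      rw [cnt_eq, cnt_eq]
      congr 1
      apply Finset.filter_congr
      intro n hn
      have := (Finset.mem_Icc.1 hn).1
      exact ⟨fun h => h.2, fun h => ⟨this, h⟩⟩
    rw [ncard_eq_cnt, h]

end Pool.Agent.Y754.TQ
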